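import Pool.Agent.H98.Cyc4

set_option autoImplicit false
open scoped Pointwise

namespace Pool.Agent.Results.MP_eba1ef_gt.Cyclic

/-- orientation determinant of `d+1` points of `d`-space: rows `(1, p i)` -/
noncomputable def orient {d : ℕ} (p : Fin (d+1) → EuclideanSpace ℝ (Fin d)) : ℝ :=
  (Matrix.of fun i => (Fin.cons 1 (fun r => p i r) : Fin (d+1) → ℝ)).det

/-- alternating (cyclic) point sequence: all increasing `(d+1)`-subsequences have the same
nonzero orientation -/
def Alternating {d n : ℕ} (v : Fin n → EuclideanSpace ℝ (Fin d)) : Prop :=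
  ∀ z z' : Fin (d+1) → Fin n, StrictMono z → StrictMono z' →
    0 < orient (fun i => v (z i)) * orient (fun i => v (z' i))

/-- `K` is covered by at most `N` translates of its interior -/
def Covered {d : ℕ} (K : Set (EuclideanSpace ℝ (Fin d))) (N : ℕ) : Prop :=
  ∃ T : Finset (EuclideanSpace ℝ (Fin d)), T.card ≤ N ∧
    K ⊆ ⋃ t ∈ T, (fun x => t + x) '' interior K

theorem one (d n : ℕ) (hd : 1 ≤ d) (hn : d + 1 ≤ n) (v : Fin n → EuclideanSpace ℝ (Fin d))
    (hv : Alternating v ∨
      ∃ t : Fin n → ℝ, StrictMono t ∧ ∀ (x : Fin n) (i : Fin d), v x i = t x ^ ((i:ℕ)+1)) :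
    Covered (convexHull ℝ (Set.range v)) (2 * d) := by
  have hv' : Alternating v := by
    rcases hv with hv | ⟨t, ht, hvt⟩
    · exact hv
    · have e : v = fun x => (WithLp.toLp 2 (fun i : Fin d => t x ^ ((i:ℕ)+1)) :
          EuclideanSpace ℝ (Fin d)) := by
        funext x; ext i; exact hvt x i
      rw [e]
      exact Pool.Agent.H98.Cyc.alt_mom ht
  exact Pool.Agent.H98.Cyc.to_cover (Pool.Agent.H98.Cyc.gen hd hv' hn)

theorem result (r : ℕ) (d n : Fin r → ℕ) (hd : ∀ j, 1 ≤ d j) (hn : ∀ j, d j + 1 ≤ n j)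
    (v : ∀ j, Fin (n j) → EuclideanSpace ℝ (Fin (d j)))
    (hv : ∀ j, Alternating (v j) ∨ ∃ t : Fin (n j) → ℝ, StrictMono t ∧
      ∀ (x : Fin (n j)) (i : Fin (d j)), v j x i = t x ^ ((i:ℕ)+1))
    (D : ℕ) (e : (∀ j, EuclideanSpace ℝ (Fin (d j))) ≃ₗ[ℝ] EuclideanSpace ℝ (Fin D))
    (L : Set (EuclideanSpace ℝ (Fin D))) :
    Covered (e '' (Set.univ.pi fun j => convexHull ℝ (Set.range (v j))) + L)
      (min (∏ j, 2 * d j) (2 ^ D)) := by
  classical
  choose T hT hc using fun j => one (d j) (n j) (hd j) (hn j) (v j) (hv j)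
  have hD : D = ∑ j, d j := by
    have := e.finrank_eq
    rw [Module.finrank_pi_fintype] at this
    simpa using this.symm
  have h1 : ((Fintype.piFinset T).image e).card ≤ ∏ j, 2 * d j := by
    refine Finset.card_image_le.trans ?_
    rw [Fintype.card_piFinset]
    exact Finset.prod_le_prod' fun j _ => hT j
  refine ⟨(Fintype.piFinset T).image e, le_min h1 (h1.trans ?_), ?_⟩
  · rw [hD, ← Finset.prod_pow_eq_pow_sum]
    refine Finset.prod_le_prod' fun j _ => ?_
    obtain ⟨m, hm⟩ : ∃ m, d j = m + 1 := ⟨d j - 1, by have := hd j; omega⟩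
    have := Nat.lt_two_pow_self (n := m)
    rw [hm, pow_succ]
    omega
  · rintro _ ⟨_, ⟨a, ha, rfl⟩, l, hl, rfl⟩
    have h : ∀ j, ∃ t ∈ T j, ∃ b ∈ interior (convexHull ℝ (Set.range (v j))), t + b = a j := by
      intro j
      have h := hc j (ha j (Set.mem_univ j))
      simp only [Set.mem_iUnion] at h
      obtain ⟨t, ht, b, hb, e'⟩ := h
      exact ⟨t, ht, b, hb, e'⟩
    choose t ht b hb hab using h
    have hb2 : b ∈ interior (Set.univ.pi fun j => convexHull ℝ (Set.range (v j))) := by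
      rw [interior_pi_set Set.finite_univ]
      exact fun j _ => hb j
    have hb3 : e b ∈ interior (e '' (Set.univ.pi fun j => convexHull ℝ (Set.range (v j)))) := by
      have := (e.toContinuousLinearEquiv.toHomeomorph.image_interior
        (Set.univ.pi fun j => convexHull ℝ (Set.range (v j)))).le ⟨b, hb2, rfl⟩
      exact this
    simp only [Set.mem_iUnion]
    refine ⟨e t, Finset.mem_image_of_mem _ (Fintype.mem_piFinset.2 ht), e b + l,
      subset_interior_add_left (Set.add_mem_add hb3 hl), ?_⟩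
    have : a = t + b := funext fun j => (hab j).symm
    simp only [this, map_add, add_assoc]

end Pool.Agent.Results.MP_eba1ef_gt.Cyclic
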